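import Pool.Agent.helper46.ESM.Spec
import Pool.Agent.helper80.EN.Asm

/-! Row es:CEN. -/

set_option autoImplicit false

namespace Pool.Agent.helper46.ESM

open Subgroup Pool.Agent.helper80.EN

universe u

section

variable {S : Type u} [Group S]

/-- `S → InnExt S α` -/
def CEN_i (α : MulAut S) : S →* InnExt S α :=
  (MulAut.conj : S →* MulAut S).codRestrict (InnExt S α)
    (fun s => (le_sup_left : (MulAut.conj : S →* MulAut S).range ≤ InnExt S α) ⟨s, rfl⟩)

theorem CEN_i_coe (α : MulAut S) (s : S) : ((CEN_i α s : InnExt S α) : MulAut S) = MulAut.conj s :=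
  rfl

theorem CEN_fgmap {A B : Type u} [Group A] [Group B] (f : A →* B) (P : Subgroup A) (h : P.FG) :
    (P.map f).FG := by
  classical
  obtain ⟨T, hT⟩ := h
  exact ⟨T.image f, by rw [Finset.coe_image, ← MonoidHom.map_closure, hT]⟩

theorem CEN_conj (β : MulAut S) (s : S) : β * MulAut.conj s * β⁻¹ = MulAut.conj (β s) := by
  ext t
  simp [MulAut.mul_apply, MulAut.conj_apply, map_mul, map_inv]

theorem CEN_conj_inj (hS : IsSimpleGroup S) (hna : ∃ x y : S, x * y ≠ y * x) :
    Function.Injective (MulAut.conj : S →* MulAut S) := by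
  have hc : center S = ⊥ := by
    rcases hS.eq_bot_or_eq_top_of_normal (center S) inferInstance with h | h
    · exact h
    · exfalso
      obtain ⟨x, y, hxy⟩ := hna
      apply hxy
      have hx : y ∈ center S := by
        rw [h]
        exact mem_top y
      exact (mem_center_iff.1 hx x)
  rw [injective_iff_map_eq_one]
  intro s hs
  have hs' : s ∈ center S := by
    rw [mem_center_iff]
    intro g
    have h1 : MulAut.conj s g = g := by
      rw [hs]
      rfl
    rw [MulAut.conj_apply] at h1
    exact (mul_inv_eq_iff_eq_mul.1 h1).symm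
  rw [hc] at hs'
  exact mem_bot.1 hs'

end

theorem CEN : CEN_stmt.{u} := by
  intro S _ α hS hfg hna β hβ
  have hinj := CEN_conj_inj hS hna
  have hinj' : Function.Injective (CEN_i α) := by
    intro x y hxy
    exact hinj (congrArg Subtype.val hxy)
  obtain ⟨hn, hl, _, _⟩ := Asm.aHPR (InnExt S α)
  have hN : ((HP (InnExt S α)).comap (CEN_i α)) = ⊥ := by
    rcases hS.eq_bot_or_eq_top_of_normal ((HP (InnExt S α)).comap (CEN_i α)) inferInstance with h | h
    · exact h
    · exfalso
      have h1 : (CEN_i α).range ≤ HP (InnExt S α) := by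
        rintro _ ⟨s, rfl⟩
        have hs : s ∈ (HP (InnExt S α)).comap (CEN_i α) := by
          rw [h]
          exact mem_top s
        exact hs
      have h2 : (CEN_i α).range.FG := by
        rw [MonoidHom.range_eq_map]
        exact CEN_fgmap _ _ (Group.fg_def.1 hfg)
      have h3 : Group.IsNilpotent (CEN_i α).range := hl _ h2 h1
      have h4 : Group.IsNilpotent S := Group.nilpotent_of_mulEquiv (MonoidHom.ofInjective hinj').symm
      have h5 : Group.IsSolvable S := inferInstance
      obtain ⟨x, y, hxy⟩ := hna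
      exact hxy (IsSimpleGroup.comm_iff_isSolvable.2 h5 x y)
  have hcomm : ∀ s : S, β * CEN_i α s * β⁻¹ = CEN_i α s := by
    intro s
    have h1 : β * CEN_i α s * β⁻¹ = CEN_i α ((β : MulAut S) s) := by
      apply Subtype.ext
      exact CEN_conj (β : MulAut S) s
    have h2 : ((β : MulAut S) s) * s⁻¹ ∈ (HP (InnExt S α)).comap (CEN_i α) := by
      change CEN_i α ((β : MulAut S) s * s⁻¹) ∈ HP (InnExt S α)
      rw [map_mul, map_inv, ← h1]
      have h3 := hn.conj_mem β⁻¹ ((HP (InnExt S α)).inv_mem hβ) (CEN_i α s)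
      have h4 := (HP (InnExt S α)).mul_mem hβ h3
      have h5 : β * CEN_i α s * β⁻¹ * (CEN_i α s)⁻¹ = β * (CEN_i α s * β⁻¹ * (CEN_i α s)⁻¹) := by
        group
      rw [h5]
      exact h4
    rw [hN, mem_bot, mul_inv_eq_one] at h2
    rw [h1, h2]
  apply Subtype.ext
  ext s
  have h1 : MulAut.conj ((β : MulAut S) s) = MulAut.conj s := by
    rw [← CEN_conj]
    exact congrArg Subtype.val (hcomm s)
  exact hinj h1

end Pool.Agent.helper46.ESM
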