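import Pool.Agent.helper27.ES.CEN

/-! Row es:GNB. -/

set_option autoImplicit false

namespace Pool.Agent.helper46.ESM

open Subgroup Pool.Agent.helper80.EN

universe u

theorem GNB_fin {A : Type u} [Group A] (X : Set A) (x : A) (hx : x ∈ closure X) :
    ∃ T : Finset A, (T : Set A) ⊆ X ∧ x ∈ closure (T : Set A) := by
  classical
  induction hx using Subgroup.closure_induction with
  | mem x hx =>
    exact ⟨{x}, by simpa using hx, subset_closure (by simp)⟩
  | one => exact ⟨∅, by simp, one_mem _⟩
  | mul x y _ _ hx hy =>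
    obtain ⟨T, hT, hxT⟩ := hx
    obtain ⟨T', hT', hyT⟩ := hy
    refine ⟨T ∪ T', ?_, mul_mem ?_ ?_⟩
    · rw [Finset.coe_union]
      exact Set.union_subset hT hT'
    · exact closure_mono (by rw [Finset.coe_union]; exact Set.subset_union_left) hxT
    · exact closure_mono (by rw [Finset.coe_union]; exact Set.subset_union_right) hyT
  | inv x _ hx =>
    obtain ⟨T, hT, hxT⟩ := hx
    exact ⟨T, hT, inv_mem hxT⟩

theorem GNB_fin2 {A : Type u} [Group A] (X : Set A) (Z : Finset A) (hZ : ∀ z ∈ Z, z ∈ closure X) :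
    ∃ T : Finset A, (T : Set A) ⊆ X ∧ ∀ z ∈ Z, z ∈ closure (T : Set A) := by
  classical
  choose! T hT1 hT2 using fun (z : A) (hz : z ∈ Z) => GNB_fin X z (hZ z hz)
  refine ⟨Z.biUnion T, ?_, ?_⟩
  · intro y hy
    rw [Finset.mem_coe, Finset.mem_biUnion] at hy
    obtain ⟨z, hz, hy⟩ := hy
    exact hT1 z hz (Finset.mem_coe.2 hy)
  · intro z hz
    refine closure_mono ?_ (hT2 z hz)
    intro y hy
    rw [Finset.mem_coe, Finset.mem_biUnion]
    exact ⟨z, hz, Finset.mem_coe.1 hy⟩

/-- a subgroup of `InnExt S α` containing the image of `S` and `a` is everything -/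
theorem GNB_top {S : Type u} [Group S] (α : MulAut S) (a : InnExt S α) (ha : (a : MulAut S) = α)
    (L : Subgroup (InnExt S α)) (h1 : ∀ s, CEN_i α s ∈ L) (h2 : a ∈ L) : L = ⊤ := by
  rw [eq_top_iff]
  rintro x -
  have h3 : InnExt S α ≤ L.map (InnExt S α).subtype := by
    apply sup_le
    · rintro _ ⟨s, rfl⟩
      exact ⟨CEN_i α s, h1 s, rfl⟩
    · rw [zpowers_le]
      exact ⟨a, h2, ha⟩
  obtain ⟨y, hy, hyx⟩ := h3 x.2
  have : y = x := Subtype.ext hyx
  rw [← this]
  exact hy

theorem GNB : GNB_stmt.{u} := by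
  classical
  intro S _ α a ha hS hfg hna hα
  have hnorm : (normalClosure {a} : Subgroup (InnExt S α)).Normal := normalClosure_normal
  have haL : a ∈ normalClosure ({a} : Set (InnExt S α)) := subset_normalClosure rfl
  have h1 : ∀ s, CEN_i α s ∈ normalClosure ({a} : Set (InnExt S α)) := by
    rcases hS.eq_bot_or_eq_top_of_normal ((normalClosure ({a} : Set (InnExt S α))).comap (CEN_i α))
      inferInstance with h | h
    · exfalso
      apply hα
      ext s
      have h2 : α s * s⁻¹ ∈ (normalClosure ({a} : Set (InnExt S α))).comap (CEN_i α) := by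
        change CEN_i α (α s * s⁻¹) ∈ normalClosure ({a} : Set (InnExt S α))
        have h3 : CEN_i α (α s) = a * CEN_i α s * a⁻¹ := by
          apply Subtype.ext
          change MulAut.conj (α s) = (a : MulAut S) * MulAut.conj s * (a : MulAut S)⁻¹
          rw [ha, CEN_conj]
        rw [map_mul, map_inv, h3]
        have h4 := hnorm.conj_mem a⁻¹ (inv_mem haL) (CEN_i α s)
        have h5 := mul_mem haL h4
        have h6 : a * CEN_i α s * a⁻¹ * (CEN_i α s)⁻¹ = a * (CEN_i α s * a⁻¹ * (CEN_i α s)⁻¹) := by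
          group
        rw [h6]
        exact h5
      rw [h, mem_bot, mul_inv_eq_one] at h2
      exact h2
    · intro s
      have hs : s ∈ (normalClosure ({a} : Set (InnExt S α))).comap (CEN_i α) := by
        rw [h]
        exact mem_top s
      exact hs
  have htop := GNB_top α a ha _ h1 haL
  obtain ⟨Y, hY⟩ := Group.fg_def.1 hfg
  have hX : closure (Group.conjugatesOfSet ({a} : Set (InnExt S α))) = ⊤ := htop
  obtain ⟨T, hT1, hT2⟩ := GNB_fin2 (Group.conjugatesOfSet ({a} : Set (InnExt S α)))
    (insert a (Y.image (CEN_i α))) (fun z _ => by rw [hX]; exact mem_top z)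
  refine ⟨T, ?_, ?_⟩
  · intro t ht
    have h2 := hT1 (Finset.mem_coe.2 ht)
    rw [Group.mem_conjugatesOfSet_iff] at h2
    obtain ⟨b, hb, hbt⟩ := h2
    rw [Set.mem_singleton_iff] at hb
    rw [← hb]
    exact hbt
  · apply GNB_top α a ha
    · have h3 : (⊤ : Subgroup S) ≤ (closure (T : Set (InnExt S α))).comap (CEN_i α) := by
        rw [← hY, closure_le]
        intro y hy
        exact hT2 _ (Finset.mem_insert_of_mem (Finset.mem_image_of_mem _ (Finset.mem_coe.1 hy)))
      exact fun s => h3 (mem_top s)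
    · exact hT2 _ (Finset.mem_insert_self _ _)

end Pool.Agent.helper46.ESM
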